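import Pool.Agent.Helper15.UL.GoalsA

/-!
# MP_57a173_lc, packet GL: gluing upper maps along lower cones
-/

noncomputable section

namespace UL.PkGL

open UL

/-- The least index is locally constant. -/
theorem find_LC {I : Type} {D : Set I} (P : ℕ → Pt I → Prop) (hP : ∀ k, LC D (P k))
    (l : Pt I → ℕ) (hl : ∀ z, P (l z) z ∧ ∀ k, k < l z → ¬ P k z) :
    LC D l := by
  choose A hA hc hF using hP
  refine ⟨⋃ k, A k, Set.iUnion_subset hA, Set.countable_iUnion hc, fun z => ?_⟩
  choose F hF1 n hn using hF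
  classical
  refine ⟨(Finset.range (l z + 1)).biUnion fun k => F k z, ?_,
    (Finset.range (l z + 1)).sup fun k => n k z, fun z' hz' => ?_⟩
  · intro ξ hξ
    simp only [Finset.coe_biUnion, Set.mem_iUnion, Finset.mem_coe] at hξ
    obtain ⟨k, _, hk⟩ := hξ
    exact Set.mem_iUnion.2 ⟨k, hF1 k z hk⟩
  · have key : ∀ k, k ≤ l z → (P k z' = P k z) := by
      intro k hk
      refine hn k z z' fun ξ hξ i hi => hz' ξ ?_ i ?_
      · exact Finset.mem_biUnion.2 ⟨k, Finset.mem_range.2 (by omega), hξ⟩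
      · exact lt_of_lt_of_le hi
          (Finset.le_sup (f := fun k => n k z) (Finset.mem_range.2 (by omega)))
    have h1 : P (l z) z' := by rw [key _ le_rfl]; exact (hl z).1
    apply le_antisymm
    · by_contra hcon
      push Not at hcon
      exact (hl z').2 _ hcon h1
    · by_contra hcon
      push Not at hcon
      have h2 := (hl z').1
      rw [key _ hcon.le] at h2
      exact (hl z).2 _ hcon h2

/-- Membership in a cone is locally constant. -/
theorem mem_LC {I : Type} {τ : I → Str} (h : (Sp τ).Finite) {D : Set I} (hD : Sp τ ⊆ D) :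
    LC D (fun z => z ∈ B τ) := by
  classical
  refine ⟨Sp τ, hD, h.countable, fun z => ⟨h.toFinset, by simp,
    h.toFinset.sup fun ξ => (τ ξ).length, fun z' hz' => ?_⟩⟩
  have key : ∀ ξ, Pre (τ ξ) (z' ξ) ↔ Pre (τ ξ) (z ξ) := by
    intro ξ
    by_cases hξ : ξ ∈ Sp τ
    · have h1 : ∀ i, i < (τ ξ).length → z' ξ i = z ξ i := fun i hi =>
        hz' ξ (by simpa using hξ) i (lt_of_lt_of_le hi
          (Finset.le_sup (f := fun ξ => (τ ξ).length) (by simpa using hξ)))
      constructor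
      · intro hp i hi
        rw [← h1 i hi]; exact hp i hi
      · intro hp i hi
        rw [h1 i hi]; exact hp i hi
    · have : τ ξ = [] := by simpa [Sp] using hξ
      rw [this]
      exact ⟨fun _ => pre_nil _, fun _ => pre_nil _⟩
  exact propext (forall_congr' key)

/-- Local constancy after stripping. -/
theorem strip_LC {I : Type} {D : Set I} {β : Type} {f : Pt I → β} (h : LC D f) (τ : I → Str) :
    LC D (fun z => f (strip τ z)) := by
  obtain ⟨A, hA, hc, h⟩ := h
  refine ⟨A, hA, hc, fun z => ?_⟩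
  obtain ⟨F, hF, n, hn⟩ := h (strip τ z)
  classical
  refine ⟨F, hF, n + F.sup fun ξ => (τ ξ).length, fun z' hz' => hn _ fun ξ hξ i hi => ?_⟩
  have h1 : (τ ξ).length ≤ F.sup fun ξ => (τ ξ).length :=
    Finset.le_sup (f := fun ξ => (τ ξ).length) hξ
  exact hz' ξ hξ (i + (τ ξ).length) (by omega)

theorem thm : UL.G_GL := by
  intro I _ D C q τ θ hD hτ hcov hθ
  classical
  -- the least index
  let l : Pt I → ℕ := fun z => Nat.find (hcov z)
  have hl : ∀ z, z ∈ B (τ (l z)) ∧ ∀ k, k < l z → ¬ z ∈ B (τ k) := fun z =>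
    ⟨Nat.find_spec (hcov z), fun k hk => Nat.find_min (hcov z) hk⟩
  have hlLC : LC D l := find_LC (fun k z => z ∈ B (τ k)) (fun k => mem_LC (hτ k).1 (hτ k).2)
    l hl
  have hnil : ∀ k ξ, ξ ∉ D → τ k ξ = [] := by
    intro k ξ hξ
    by_contra hc
    exact hξ ((hτ k).2 hc)
  have hlt : ∀ ξ, ξ ∉ D → D ⊆ Set.Iio ξ := by
    intro ξ hξ η hη
    by_contra hc
    exact hξ (hD (not_lt.1 hc) hη)
  choose L hL using fun k c => (hθ k c).1.1
  let Θ : C → Pt I → Pt I := fun c z ξ =>
    if ξ ∈ D then z ξ else θ (l z) c (strip (τ (l z)) z) ξ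
  let LL : C → I → Pt I → Str → Str := fun c ξ z σ =>
    if ξ ∈ D then σ else L (l z) c ξ (strip (τ (l z)) z) σ
  have hrep : ∀ c, IsRep (LL c) (Θ c) := by
    intro c
    refine ⟨fun ξ z => ?_, fun ξ σ => ?_, ?_, fun z ξ n => ?_⟩
    · by_cases hξ : ξ ∈ D
      · simp only [LL, hξ, if_true]; exact IsL.id
      · simp only [LL, hξ, if_false]; exact (hL _ c).isL ξ _
    · by_cases hξ : ξ ∈ D
      · simp only [LL, hξ, if_true]; exact LC.const _
      · simp only [LL, hξ, if_false]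
        exact LC.bind (g := fun k z => L k c ξ (strip (τ k) z) σ) (hlLC.mono (hlt ξ hξ))
          fun k => strip_LC ((hL k c).lc ξ σ) (τ k)
    · choose A hA hA' using fun k => (hL k c).sup
      refine ⟨⋃ k, A k, Set.countable_iUnion hA, fun ξ hξ z σ => ?_⟩
      by_cases hξD : ξ ∈ D
      · simp only [LL, hξD, if_true]
      · simp only [LL, hξD, if_false]
        exact hA' (l z) ξ (fun hc => hξ (Set.mem_iUnion.2 ⟨l z, hc⟩)) _ σ
    · by_cases hξ : ξ ∈ D
      · simp only [LL, Θ, hξ, if_true]; exact pre_res _ _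
      · simp only [LL, Θ, hξ, if_false]
        have h1 := (hL (l z) c).pre (strip (τ (l z)) z) ξ n
        have h2 : strip (τ (l z)) z ξ = z ξ := by
          show dropY (τ (l z) ξ).length (z ξ) = z ξ
          rw [hnil _ ξ hξ]
          exact dropY_zero _
        rw [h2] at h1
        exact h1
  refine ⟨Θ, fun c => ⟨⟨⟨_, hrep c⟩, fun z ξ hξ => ?_⟩, ⟨_, hrep c, fun ξ z σ hσ => ?_⟩⟩, ?_⟩
  · simp only [Θ, hξ, if_true]
  · by_cases hξ : ξ ∈ D
    · simp only [LL, hξ, if_true]
      exact ⟨0, by simp [zs]⟩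
    · simp only [LL, hξ, if_false]
      exact (hθ (l z) c).2.rep (hL (l z) c) hσ
  · obtain ⟨A1, hA1, hA1c, hA1z⟩ := LC_iff.1 hlLC
    refine ⟨A1 ∪ ⋃ k, Sp (τ k), Set.union_subset hA1 (Set.iUnion_subset fun k => (hτ k).2),
      hA1c.union (Set.countable_iUnion fun k => (hτ k).1.countable), fun z => ?_⟩
    obtain ⟨κ, hκ1, hκ2, hκ3, hκ4⟩ := hA1z z
    obtain ⟨ρ, lam, κ', hρz, hρor, hρlam, hρκ⟩ := cone_inter (hl z).1 hκ3
    have hSp : Sp ρ ⊆ Sp (τ (l z)) ∪ Sp κ := by
      intro ξ hξ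
      rcases hρor ξ with h | h
      · left; intro hc; exact hξ (by rw [h]; exact hc)
      · right; intro hc; exact hξ (by rw [h]; exact hc)
    have hfin : (Sp ρ).Finite := ((hτ _).1.union hκ1).subset hSp
    have hlamSp : Sp lam ⊆ Sp ρ := Sp_of_suffix hρlam
    have hJ : J ρ = J (τ (l z)) ∘ J lam := by
      rw [J_comp]
      congr 1
      exact funext hρlam
    have hSpD : Sp ρ ⊆ D := hSp.trans (Set.union_subset (hτ _).2 (hκ2.trans hA1))
    refine ⟨ρ, hfin, ?_, hρz, l z, lam, hfin.subset hlamSp, hlamSp.trans hSpD, hJ, fun c => ?_⟩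
    · intro ξ hξ
      rcases hSp hξ with h | h
      · exact Or.inr (Set.mem_iUnion.2 ⟨l z, h⟩)
      · exact Or.inl (hκ2 h)
    · funext w
      have hz' : J ρ w ∈ B κ := by
        intro ξ
        have h1 : Pre (ρ ξ) (J ρ w ξ) := J_mem_B ρ w ξ
        rw [hρκ ξ] at h1
        exact (pre_append.1 h1).1
      have hlz : l (J ρ w) = l z := hκ4 _ hz'
      have hst : strip (τ (l z)) (J ρ w) = J lam w := by
        rw [hJ]; exact strip_J _ _
      funext ξ
      by_cases hξ : ξ ∈ D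
      · show Θ c (J ρ w) ξ = catY (τ (l z) ξ) (θ (l z) c (J lam w) ξ)
        rw [(hθ (l z) c).1.2 _ ξ hξ]
        simp only [Θ, hξ, if_true]
        rw [hJ]
        rfl
      · show Θ c (J ρ w) ξ = catY (τ (l z) ξ) (θ (l z) c (J lam w) ξ)
        simp only [Θ, hξ, if_false]
        rw [hlz, hst, hnil _ ξ hξ, catY_nil]

end UL.PkGL
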